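import Pool.Agent.Helper58.BT.AP3B

/-!
# Coset form for finitely generated subgroups with at most one end
-/

set_option autoImplicit false

namespace Pool.Agent.Helper58.BT

open Pool.Agent.Helper27.VF

universe u

/-- At most one end (as in `Results/MP_266b34_co/InfiniteGenerators.lean`). -/
def AtMostOneEnd (D : Type u) [Group D] : Prop :=
  ∀ U : Set D, (∀ g : D, {x | x ∈ U ∧ x * g ∉ U}.Finite) → U.Finite ∨ Uᶜ.Finite

/-- A walk from `c.1` which does not meet the separator stays in `c.1`. -/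
theorem walk_stay {W : Type u} {G : SimpleGraph W} {c : Set W × Set W} (hc : IsCut G c) {x y : W}
    (q : G.Walk x y) (hx : x ∈ c.1) (h : ∀ z ∈ q.support, z ∉ sep c) : y ∈ c.1 := by
  induction q with
  | nil => exact hx
  | @cons x z y hadj q ih =>
    have hz : z ∉ sep c := h z (by rw [SimpleGraph.Walk.support_cons]; simp)
    have hz1 : z ∈ c.1 := by
      by_contra hz1
      have : z ∈ c.2 := by
        by_contra hz2
        exact hz (fun h' => h'.elim hz1 hz2)
      exact hc.no x hx z this hadj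
    exact ih hz1 fun u hu => h u (by rw [SimpleGraph.Walk.support_cons]; simp [hu])

theorem con_of_oneEnd (D : Type u) [Group D] (hE : AtMostOneEnd D)
    (W : Type u) [MulAction D W] (G G₀ : SimpleGraph W) (w : W) (p : Ultrafilter W)
    (hst : Stg D G G₀ w p) : Con D G p := by
  classical
  obtain ⟨F, hF, hcov⟩ := hst.fin
  -- an orbit in `p`
  have hor : ∃ f ∈ F, {x : W | ∃ g : D, g • f = x} ∈ p := by
    have h1 : (⋃ f ∈ F, {x : W | ∃ g : D, g • f = x}) ∈ p := by
      have : (⋃ f ∈ F, {x : W | ∃ g : D, g • f = x}) = Set.univ := by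
        rw [Set.eq_univ_iff_forall]
        intro x
        obtain ⟨g, f, hf, rfl⟩ := hcov x
        exact Set.mem_biUnion hf ⟨g, rfl⟩
      rw [this]; exact Filter.univ_mem
    exact (Ultrafilter.finite_biUnion_mem_iff hF).1 h1
  obtain ⟨f, -, hf⟩ := hor
  have hInf : Infinite D := by
    by_contra h
    have := not_infinite_iff_finite.1 h
    refine hst.nonp _ (Set.finite_range fun g : D => g • f) (Filter.mem_of_superset hf ?_)
    rintro x ⟨g, hg⟩
    exact ⟨g, hg⟩
  refine ⟨Set.univ, Set.infinite_univ, ?_⟩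
  rintro a - b - c hc ⟨ha, hb⟩
  have hP : ({x : W | ∃ g : D, g • f = x} ∩ ({x | a • x ∈ c.1} ∩ {x | b • x ∈ c.2})) ∈ p :=
    Filter.inter_mem hf (Filter.inter_mem ha hb)
  have hinf : ({x : W | ∃ g : D, g • f = x} ∩ ({x | a • x ∈ c.1} ∩ {x | b • x ∈ c.2})).Infinite :=
    fun h => hst.nonp _ h hP
  let U : Set D := {g | g • f ∈ c.1}
  -- the two infinite sets
  have key : ∀ (e : D) (V : Set W), (∀ x : W, a • x ∈ c.1 → b • x ∈ c.2 → e • x ∈ V) →
      {g : D | g • f ∈ V}.Infinite := by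
    intro e V hV hfin
    refine hinf ((hfin.image fun g => (e⁻¹ * g) • f).subset ?_)
    rintro x ⟨⟨g, rfl⟩, hx1, hx2⟩
    refine ⟨e * g, ?_, ?_⟩
    · have := hV _ hx1 hx2
      rwa [smul_smul] at this
    · simp
  have hU1 : U.Infinite := key a c.1 fun x h1 _ => h1
  have hU2 : Uᶜ.Infinite := (key b c.2 fun x _ h2 => h2).mono fun g hg h => hc.disj _ h hg
  suffices hU3 : ∀ g : D, {x | x ∈ U ∧ x * g ∉ U}.Finite from
    (hE U hU3).elim (fun h => hU1 h) (fun h => hU2 h)
  intro h
  obtain ⟨q⟩ := hst.conn.preconnected f (h • f)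
  have hfin : (⋃ z ∈ q.support.toFinset, {g : D | g • z ∈ sep c}).Finite := by
    refine Set.Finite.biUnion (Finset.finite_toSet _) fun z _ => ?_
    refine Set.Finite.of_finite_image (f := fun g : D => g • z) (hc.fin.subset ?_) ?_
    · rintro _ ⟨g, hg, rfl⟩; exact hg
    · intro g _ g' _ hgg
      have : (g'⁻¹ * g) • z = z := by
        rw [mul_smul]
        change g'⁻¹ • (g • z) = z
        have h2 : g • z = g' • z := hgg
        rw [h2, inv_smul_smul]
      have := hst.free _ _ this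
      rw [inv_mul_eq_one] at this
      exact this.symm
  refine hfin.subset ?_
  rintro g ⟨hg1, hg2⟩
  by_contra hno
  have hno' : ∀ z ∈ q.support, g • z ∉ sep c := by
    intro z hz h3
    exact hno (Set.mem_biUnion (List.mem_toFinset.2 hz) h3)
  -- translate the walk
  let φ : G₀ →g G :=
    { toFun := fun x => g • x, map_rel' := fun {x y} hxy => hst.le (hst.inv₀ g x y hxy) }
  have := walk_stay hc (q.map φ) hg1 (by
    intro z hz
    rw [SimpleGraph.Walk.support_map, List.mem_map] at hz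
    obtain ⟨z', hz', rfl⟩ := hz
    exact hno' z' hz')
  apply hg2
  change (g * h) • f ∈ c.1
  rw [mul_smul]
  exact this

/-- The coset form for finitely generated groups with bounded orders of the finite subgroups or with
at most one end. -/
def Ap3cStmt : Prop := ∀ (Γ : Type u) [Group Γ] (S : Set Γ), Subgroup.closure S = ⊤ →
  (∀ s ∈ S, s⁻¹ ∈ S) → (1 : Γ) ∉ S → ∀ (D : Subgroup Γ), Group.FG D →
  ((∃ N : ℕ, ∀ F : Subgroup D, (F : Set D).Finite → Nat.card F ≤ N) ∨ AtMostOneEnd D) →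
  ∀ b : Γ, {s | s ∈ S ∧ s * b⁻¹ ∈ D}.Infinite →
  ∃ φ : ℕ → Set Γ,
    (∀ i, ((SimpleGraph.fromRel fun a b : Γ => a⁻¹ * b ∈ S).induce (φ i)).Connected) ∧
    (∀ i j, i ≠ j → Disjoint (φ i) (φ j)) ∧
    ∀ i j, i ≠ j → ∃ a ∈ φ i, ∃ b ∈ φ j,
      (SimpleGraph.fromRel fun a b : Γ => a⁻¹ * b ∈ S).Adj a b

theorem ap3c_of (hI : Pool.Agent.Helper61.BT.InbStmt.{u}) (hR : Pool.Agent.Helper61.BT.RkbStmt.{u})
    (hK : KndStmt.{u}) : Ap3cStmt.{u} := by
  intro Γ _ S hS hs h1 D hD hor b hb
  rcases hor with h | h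
  · exact ap3b_of hI hR hK Γ S hS hs h1 D hD h b hb
  · exact ap3g hK Γ S hS hs h1 D hD (fun W _ G G₀ w p hst => con_of_oneEnd D h W G G₀ w p hst) b hb

end Pool.Agent.Helper58.BT
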