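import Pool.Agent.Helper58.BT.RedN
import Pool.Agent.Helper58.BT.APB
import Pool.Agent.Helper52.VF.FinBT
import Pool.Agent.Results.MP_266b34_co.InfiniteGenerators

/-!
# The coset form for good subgroups
-/

set_option autoImplicit false

namespace Pool.Agent.Helper58.Good

open Pool.Agent.Helper58.VF Pool.Agent.Helper58.Red

universe u

/-- A group is good if it is finitely generated with bounded orders of the finite subgroups, or has
at most one end, or has an infinite normal subgroup without free subgroups of rank two or with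
infinite centralizer. -/
def GoodG (D : Type u) [Group D] : Prop :=
  (Group.FG D ∧ ∃ N : ℕ, ∀ F : Subgroup D, (F : Set D).Finite → Nat.card F ≤ N) ∨
  (∀ U : Set D, (∀ g : D, {x | x ∈ U ∧ x * g ∉ U}.Finite) → U.Finite ∨ Uᶜ.Finite) ∨
  ∃ N : Subgroup D, N.Normal ∧ Infinite N ∧
    ((∀ f : FreeGroup (Fin 2) →* N, ¬ Function.Injective f) ∨
      Infinite (Subgroup.centralizer (N : Set D)))

/-- Infinite generating sets of good groups. -/
theorem whole (D : Type u) [Group D] (hD : GoodG D) (T : Set D) (hT : Subgroup.closure T = ⊤)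
    (hs : ∀ t ∈ T, t⁻¹ ∈ T) (h1 : (1 : D) ∉ T) (hinf : T.Infinite) :
    ∃ ψ : ℕ → Set D, (∀ i, ((cay T).induce (ψ i)).Connected) ∧
      (∀ i j, i ≠ j → Disjoint (ψ i) (ψ j)) ∧
      ∀ i j, i ≠ j → ∃ a ∈ ψ i, ∃ b ∈ ψ j, (cay T).Adj a b := by
  rcases hD with ⟨hG, hN⟩ | h
  · exact Pool.Agent.Helper58.BT.apb Pool.Agent.Helper87.BF.Asm.t_INB'
      Pool.Agent.Helper87.BF.Asm.t_RKB' Pool.Agent.Helper52.VFBase.knd D hG hN T hT hs h1 hinf
  · have ht : Pool.Agent.Results.MP_266b34_co.InfiniteGenerators.Tame T := by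
      rcases h with h | h
      · exact Or.inr (Or.inl h)
      · exact Or.inl h
    obtain ⟨φ, k1, k2, k3⟩ :=
      Pool.Agent.Results.MP_266b34_co.InfiniteGenerators.result.{u, 0}.1 D T ⟨hT, hs, h1⟩ hinf ht
        ℕ (⊤ : SimpleGraph ℕ)
    exact ⟨φ, k1, k2, fun i j hij => k3 i j hij⟩

/-- **The coset form.** -/
theorem coset (Γ : Type u) [Group Γ] (S : Set Γ) (hS : Subgroup.closure S = ⊤)
    (hs : ∀ s ∈ S, s⁻¹ ∈ S) (h1 : (1 : Γ) ∉ S) (D : Subgroup Γ) (hD : GoodG D) (b : Γ) (N : ℕ)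
    (hinf : {x : Γ | x * b⁻¹ ∈ D ∧
      ∃ l : List Γ, l.length ≤ N ∧ (∀ s ∈ l, s ∈ S) ∧ l.prod = x}.Infinite) :
    ∃ χ : ℕ → Set Γ, (∀ i, ((cay S).induce (χ i)).Connected) ∧
      (∀ i j, i ≠ j → Disjoint (χ i) (χ j)) ∧
      ∀ i j, i ≠ j → ∃ a ∈ χ i, ∃ b ∈ χ j, (cay S).Adj a b := by
  obtain ⟨T, hT1, hT2, hT3, hT4, φ, p1, p2, p3⟩ := reductionN Γ S hS hs h1 D b N hinf
  obtain ⟨ψ, k1, k2, k3⟩ := whole D hD T hT1 hT2 hT3 hT4
  exact comp φ p1 p2 p3 ψ k1 k2 k3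

end Pool.Agent.Helper58.Good
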