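import Pool.Agent.Helper58.BT.Glue
import Pool.Agent.Helper69.VF.AP3

/-!
# Project BT, coset form
-/

set_option autoImplicit false

namespace Pool.Agent.Helper58.BT

open Pool.Agent.Helper27.VF Pool.Agent.Helper38.VF Pool.Agent.Helper61.BT

universe u

theorem ap3g (hK : KndStmt.{u}) : Ap3gStmt.{u} :=
  fun _ _ S hS _ h1 D hD hCon b hb =>
    Pool.Agent.Helper69.AP3.ap3 hK D ((Group.fg_iff_subgroup_fg _).1 hD) hCon S hS h1 b hb

/-- The coset form for groups with bounded orders of the finite subgroups. -/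
theorem ap3b_of (hI : InbStmt.{u}) (hR : RkbStmt.{u}) (hK : KndStmt.{u}) : Ap3bStmt.{u} :=
  ap3b hI hR (ap3g hK)

end Pool.Agent.Helper58.BT
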