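import Pool.Agent.Helper61.BT.Goals

/-!
# Project BT, packet DVB (from LMB, ADJ, DRB, DXB, ORB)
-/

set_option autoImplicit false

namespace Pool.Agent.Helper58.BT

open Pool.Agent.Helper27.VF Pool.Agent.Helper38.VF Pool.Agent.Helper61.BT

universe u

theorem dvb (hL : LmbStmt.{u}) (hA : AdjStmt.{u}) (hD : DrbStmt.{u}) (hX : DxbStmt.{u})
    (hO : OrbStmt.{u}) : DvbStmt.{u} := by
  intro A W _ _ G G₀ w p hst k hM hne
  obtain ⟨Λ, lam, hlab, hl⟩ := hL A W G G₀ w p hst k hM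
  obtain ⟨-, -, hO3, -⟩ := hO A W G G₀ w p hst k hM
  obtain ⟨x, hx, hadj⟩ := hA A W G G₀ w p hst k hM (hO3 hne)
  obtain ⟨E, o, h1, h2, h3⟩ := hX A (BB A G p k) Λ lam hlab x hx (by
    intro g hg hxg
    exact hl _ _ (fun h => hxg (by simpa using inv_mem h))
      (fun h => hg (by simpa using inv_mem h)) (hadj g hg hxg))
  exact ⟨hD A (BB A G p k) Λ lam hlab, x, E, o, h1, h2, h3⟩

end Pool.Agent.Helper58.BT
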