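import Pool.Agent.Helper61.BT.Goals

/-!
# Project BT, coset form: glue

The generic coset form (`Ap3gStmt`, hypothesis: every setting of the group `D` satisfies `Con`) and the
rank inequality give the coset form for groups with bounded orders of the finite subgroups.
-/

set_option autoImplicit false

namespace Pool.Agent.Helper58.BT

open Pool.Agent.Helper27.VF Pool.Agent.Helper38.VF Pool.Agent.Helper61.BT

universe u

/-- The generic coset form. -/
def Ap3gStmt : Prop := ∀ (Γ : Type u) [Group Γ] (S : Set Γ), Subgroup.closure S = ⊤ →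
  (∀ s ∈ S, s⁻¹ ∈ S) → (1 : Γ) ∉ S → ∀ (D : Subgroup Γ), Group.FG D →
  (∀ (W : Type u) [MulAction D W] (G G₀ : SimpleGraph W) (w : W) (p : Ultrafilter W),
    Stg D G G₀ w p → Con D G p) →
  ∀ b : Γ, {s | s ∈ S ∧ s * b⁻¹ ∈ D}.Infinite →
  ∃ φ : ℕ → Set Γ,
    (∀ i, ((SimpleGraph.fromRel fun a b : Γ => a⁻¹ * b ∈ S).induce (φ i)).Connected) ∧
    (∀ i j, i ≠ j → Disjoint (φ i) (φ j)) ∧
    ∀ i j, i ≠ j → ∃ a ∈ φ i, ∃ b ∈ φ j,
      (SimpleGraph.fromRel fun a b : Γ => a⁻¹ * b ∈ S).Adj a b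

/-- The coset form for groups with bounded orders of the finite subgroups. -/
def Ap3bStmt : Prop := ∀ (Γ : Type u) [Group Γ] (S : Set Γ), Subgroup.closure S = ⊤ →
  (∀ s ∈ S, s⁻¹ ∈ S) → (1 : Γ) ∉ S → ∀ (D : Subgroup Γ), Group.FG D →
  (∃ N : ℕ, ∀ F : Subgroup D, (F : Set D).Finite → Nat.card F ≤ N) →
  ∀ b : Γ, {s | s ∈ S ∧ s * b⁻¹ ∈ D}.Infinite →
  ∃ φ : ℕ → Set Γ,
    (∀ i, ((SimpleGraph.fromRel fun a b : Γ => a⁻¹ * b ∈ S).induce (φ i)).Connected) ∧
    (∀ i j, i ≠ j → Disjoint (φ i) (φ j)) ∧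
    ∀ i j, i ≠ j → ∃ a ∈ φ i, ∃ b ∈ φ j,
      (SimpleGraph.fromRel fun a b : Γ => a⁻¹ * b ∈ S).Adj a b

/-- A finitely generated group with bounded orders of the finite subgroups satisfies `Con` in every
setting. -/
theorem con_of_bdd (hI : InbStmt.{u}) (hR : RkbStmt.{u}) (D : Type u) [Group D] (hG : Group.FG D)
    (hN : ∃ N : ℕ, ∀ F : Subgroup D, (F : Set D).Finite → Nat.card F ≤ N)
    (W : Type u) [MulAction D W] (G G₀ : SimpleGraph W) (w : W) (p : Ultrafilter W)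
    (hst : Stg D G G₀ w p) : Con D G p := by
  obtain ⟨N, hN⟩ := hN
  by_contra hc
  obtain ⟨T, hT⟩ := Group.fg_iff'.1 hG
  obtain ⟨F, -, hF⟩ := hT
  have hD := hI (2 * N * F.card + 1) D W G G₀ w p hst hc
  let e : Fin F.card ≃ F := F.equivFin.symm
  have hcl : Subgroup.closure (Set.range fun i : Fin F.card => ((e i : F) : D)) = ⊤ := by
    have hr : (Set.range fun i : Fin F.card => ((e i : F) : D)) = (F : Set D) := by
      ext x
      constructor
      · rintro ⟨i, rfl⟩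
        exact (e i).2
      · intro hx
        exact ⟨e.symm ⟨x, hx⟩, by simp⟩
    rw [hr, hF]
  have := hR D F.card (2 * N * F.card + 1) N (fun i => ((e i : F) : D)) hcl hN hD
  omega

theorem ap3b (hI : InbStmt.{u}) (hR : RkbStmt.{u}) (h3 : Ap3gStmt.{u}) : Ap3bStmt.{u} :=
  fun Γ _ S hS hs h1 D hD hN b hb =>
    h3 Γ S hS hs h1 D hD (fun W _ G G₀ w p hst => con_of_bdd hI hR D hD hN W G G₀ w p hst) b hb

end Pool.Agent.Helper58.BT
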