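import Pool.Agent.Helper58.BT.OneEnd

/-!
# Coset form for arbitrary subgroups with at most one end (not necessarily finitely generated)
-/

set_option autoImplicit false

namespace Pool.Agent.Helper58.BT

open Pool.Agent.Helper27.VF Pool.Agent.Helper58.VF

universe u

/-- Elements of `D` are not separated by finite sets in the Cayley graph. -/
theorem nosep {Γ : Type u} [Group Γ] (S : Set Γ) (hS : Subgroup.closure S = ⊤)
    (h1 : (1 : Γ) ∉ S) (D : Subgroup Γ) (hE : AtMostOneEnd D) (b : Γ)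
    (hinf : {s | s ∈ S ∧ s * b⁻¹ ∈ D}.Infinite) (x y : D) (c : Set Γ × Set Γ)
    (hc : IsCut (cay S) c) : ¬ ((x : Γ) ∈ c.1 ∧ (y : Γ) ∈ c.2) := by
  classical
  rintro ⟨hx, hy⟩
  let P : Set Γ := {s | s ∈ S ∧ s * b⁻¹ ∈ D}
  let U : Set D := {g | (g : Γ) * b ∈ c.1}
  have hadj : ∀ (z : Γ) (s : Γ), s ∈ S → (cay S).Adj z (z * s) := by
    intro z s hs
    refine cay_adj.2 ⟨?_, Or.inl ?_⟩
    · intro h
      have : s = 1 := by
        have h2 : z * 1 = z * s := by rw [mul_one]; exact h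
        exact (mul_left_cancel h2).symm
      exact h1 (this ▸ hs)
    · rw [inv_mul_cancel_left]; exact hs
  -- a side which contains an element of `D` contains infinitely many elements of the coset
  have key : ∀ (z : D) (V : Set Γ), (∀ s ∈ P, (z : Γ) * s ∉ sep c → (z : Γ) * s ∈ V) →
      {g : D | (g : Γ) * b ∈ V}.Infinite := by
    intro z V hV hfin
    have hPinf : (P \ ((fun s : Γ => (z : Γ)⁻¹ * s) '' sep c)).Infinite :=
      hinf.sdiff (hc.fin.image _)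
    refine hPinf ((hfin.image fun g : D => (z : Γ)⁻¹ * ((g : Γ) * b)).subset ?_)
    rintro s ⟨hs, hs2⟩
    have h3 : (z : Γ) * s ∉ sep c := fun h => hs2 ⟨_, h, by simp⟩
    refine ⟨z * ⟨s * b⁻¹, hs.2⟩, ?_, ?_⟩
    · have := hV s hs h3
      change ((z : Γ) * (s * b⁻¹)) * b ∈ V
      rwa [mul_assoc, inv_mul_cancel_right]
    · change (z : Γ)⁻¹ * (((z : Γ) * (s * b⁻¹)) * b) = s
      group
  have hU1 : U.Infinite := by
    refine key x c.1 fun s hs h => ?_
    by_contra h1'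
    have h2' : (x : Γ) * s ∈ c.2 := by
      by_contra h2'
      exact h (fun h' => h'.elim h1' h2')
    exact hc.no _ hx _ h2' (hadj _ _ hs.1)
  have hU2 : Uᶜ.Infinite := by
    refine (key y c.2 fun s hs h => ?_).mono fun g hg h => hc.disj _ h hg
    by_contra h2'
    have h1' : (y : Γ) * s ∈ c.1 := by
      by_contra h1'
      exact h (fun h' => h'.elim h1' h2')
    exact hc.no _ h1' _ hy (hadj _ _ hs.1).symm
  suffices hU3 : ∀ g : D, {x | x ∈ U ∧ x * g ∉ U}.Finite from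
    (hE U hU3).elim (fun h => hU1 h) (fun h => hU2 h)
  intro h
  obtain ⟨q⟩ := (cay_conn hS).preconnected b ((h : Γ) * b)
  have hfin : (⋃ z ∈ q.support.toFinset, {g : D | (g : Γ) * z ∈ sep c}).Finite := by
    refine Set.Finite.biUnion (Finset.finite_toSet _) fun z _ => ?_
    refine Set.Finite.of_finite_image (f := fun g : D => (g : Γ) * z) (hc.fin.subset ?_) ?_
    · rintro _ ⟨g, hg, rfl⟩; exact hg
    · intro g _ g' _ hgg
      exact Subtype.ext (mul_right_cancel hgg)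
  refine hfin.subset ?_
  rintro g ⟨hg1, hg2⟩
  by_contra hno
  have hno' : ∀ z ∈ q.support, (g : Γ) * z ∉ sep c := by
    intro z hz h3
    exact hno (Set.mem_biUnion (List.mem_toFinset.2 hz) h3)
  let φ : cay S →g cay S :=
    { toFun := fun x => (g : Γ) * x, map_rel' := fun {x y} hxy => cay_mul (g : Γ) hxy }
  have := walk_stay hc (q.map φ) hg1 (by
    intro z hz
    rw [SimpleGraph.Walk.support_map, List.mem_map] at hz
    obtain ⟨z', hz', rfl⟩ := hz
    exact hno' z' hz')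
  apply hg2
  change ((g : Γ) * (h : Γ)) * b ∈ c.1
  rw [mul_assoc]
  exact this

theorem ap3_oneEnd (hK : KndStmt.{u}) (Γ : Type u) [Group Γ] (S : Set Γ)
    (hS : Subgroup.closure S = ⊤) (h1 : (1 : Γ) ∉ S) (D : Subgroup Γ) (hE : AtMostOneEnd D)
    (b : Γ) (hinf : {s | s ∈ S ∧ s * b⁻¹ ∈ D}.Infinite) :
    ∃ φ : ℕ → Set Γ,
      (∀ i, ((SimpleGraph.fromRel fun a b : Γ => a⁻¹ * b ∈ S).induce (φ i)).Connected) ∧
      (∀ i j, i ≠ j → Disjoint (φ i) (φ j)) ∧
      ∀ i j, i ≠ j → ∃ a ∈ φ i, ∃ b ∈ φ j,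
        (SimpleGraph.fromRel fun a b : Γ => a⁻¹ * b ∈ S).Adj a b := by
  have hDinf : (D : Set Γ).Infinite := by
    intro h
    refine hinf ((h.image fun d => d * b).subset ?_)
    rintro s ⟨-, hs⟩
    exact ⟨s * b⁻¹, hs, by simp⟩
  refine hK Γ (cay S) (D : Set Γ) hDinf ?_
  intro x hx y hy c hc
  exact nosep S hS h1 D hE b hinf ⟨x, hx⟩ ⟨y, hy⟩ c hc

/-- The coset form for finitely generated groups with bounded orders of the finite subgroups, or
arbitrary groups with at most one end. -/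
def Ap3dStmt : Prop := ∀ (Γ : Type u) [Group Γ] (S : Set Γ), Subgroup.closure S = ⊤ →
  (∀ s ∈ S, s⁻¹ ∈ S) → (1 : Γ) ∉ S → ∀ (D : Subgroup Γ),
  ((Group.FG D ∧ ∃ N : ℕ, ∀ F : Subgroup D, (F : Set D).Finite → Nat.card F ≤ N) ∨
    AtMostOneEnd D) →
  ∀ b : Γ, {s | s ∈ S ∧ s * b⁻¹ ∈ D}.Infinite →
  ∃ φ : ℕ → Set Γ,
    (∀ i, ((SimpleGraph.fromRel fun a b : Γ => a⁻¹ * b ∈ S).induce (φ i)).Connected) ∧
    (∀ i j, i ≠ j → Disjoint (φ i) (φ j)) ∧
    ∀ i j, i ≠ j → ∃ a ∈ φ i, ∃ b ∈ φ j,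
      (SimpleGraph.fromRel fun a b : Γ => a⁻¹ * b ∈ S).Adj a b

theorem ap3d_of (hI : Pool.Agent.Helper61.BT.InbStmt.{u}) (hR : Pool.Agent.Helper61.BT.RkbStmt.{u})
    (hK : KndStmt.{u}) : Ap3dStmt.{u} := by
  intro Γ _ S hS hs h1 D hor b hb
  rcases hor with ⟨hD, h⟩ | h
  · exact ap3b_of hI hR hK Γ S hS hs h1 D hD h b hb
  · exact ap3_oneEnd hK Γ S hS h1 D h b hb

end Pool.Agent.Helper58.BT
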