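import Pool.Agent.Helper58.VF.APP

/-!
# Reduction: contraction of `Cay(Γ, S)` to a Cayley graph of a subgroup
-/

set_option autoImplicit false

namespace Pool.Agent.Helper58.Red

open Pool.Agent.Helper58.VF

universe u v

/-- `y` can be reached from `x` inside `X`. -/
def Rch {V : Type u} (G : SimpleGraph V) (X : Set V) (x y : V) : Prop :=
  Relation.ReflTransGen (fun u v => G.Adj u v ∧ v ∈ X) x y

theorem Rch.mono {V : Type u} {G : SimpleGraph V} {X Y : Set V} (h : X ⊆ Y) {x y : V}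
    (hr : Rch G X x y) : Rch G Y x y :=
  Relation.ReflTransGen.mono (r := fun u v => G.Adj u v ∧ v ∈ X)
    (p := fun u v => G.Adj u v ∧ v ∈ Y) (fun _ _ h1 => ⟨h1.1, h h1.2⟩) x y hr

theorem rch_of_conn {V : Type u} {G : SimpleGraph V} {X : Set V} (h : (G.induce X).Connected)
    {x y : V} (hx : x ∈ X) (hy : y ∈ X) : Rch G X x y := by
  have key : ∀ u v : X, (G.induce X).Walk u v → Rch G X u v := by
    intro u v p
    induction p with
    | nil => exact Relation.ReflTransGen.refl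
    | @cons a b c hadj p ih => exact Relation.ReflTransGen.head ⟨hadj, b.2⟩ ih
  obtain ⟨p⟩ := h.preconnected ⟨x, hx⟩ ⟨y, hy⟩
  exact key _ _ p

theorem conn_of_rch {V : Type u} {G : SimpleGraph V} {X : Set V} {x₀ : V} (hx : x₀ ∈ X)
    (h : ∀ x ∈ X, Rch G X x₀ x) : (G.induce X).Connected := by
  have key : ∀ c, Rch G X x₀ c → ∃ hc : c ∈ X, (G.induce X).Reachable ⟨x₀, hx⟩ ⟨c, hc⟩ := by
    intro c hc
    induction hc with
    | refl => exact ⟨hx, SimpleGraph.Reachable.refl _⟩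
    | @tail b c _ hbc ih =>
      obtain ⟨hb, hr⟩ := ih
      refine ⟨hbc.2, hr.trans (SimpleGraph.Adj.reachable ?_)⟩
      exact hbc.1
  have : Nonempty X := ⟨⟨x₀, hx⟩⟩
  refine SimpleGraph.Connected.mk ?_
  rintro ⟨a, ha⟩ ⟨b, hb⟩
  obtain ⟨_, h1⟩ := key a (h a ha)
  obtain ⟨_, h2⟩ := key b (h b hb)
  exact h1.symm.trans h2

/-- Composition of minors. -/
theorem comp {V : Type u} {W : Type v} {H : SimpleGraph V} {G : SimpleGraph W} (φ : V → Set W)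
    (h1 : ∀ v, (G.induce (φ v)).Connected) (h2 : ∀ v w, v ≠ w → Disjoint (φ v) (φ w))
    (h3 : ∀ v w, H.Adj v w → ∃ a ∈ φ v, ∃ b ∈ φ w, G.Adj a b) (ψ : ℕ → Set V)
    (k1 : ∀ i, (H.induce (ψ i)).Connected) (k2 : ∀ i j, i ≠ j → Disjoint (ψ i) (ψ j))
    (k3 : ∀ i j, i ≠ j → ∃ a ∈ ψ i, ∃ b ∈ ψ j, H.Adj a b) :
    ∃ χ : ℕ → Set W, (∀ i, (G.induce (χ i)).Connected) ∧
      (∀ i j, i ≠ j → Disjoint (χ i) (χ j)) ∧
      ∀ i j, i ≠ j → ∃ a ∈ χ i, ∃ b ∈ χ j, G.Adj a b := by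
  refine ⟨fun i => ⋃ v ∈ ψ i, φ v, ?_, ?_, ?_⟩
  · intro i
    obtain ⟨v₀, hv₀⟩ := (k1 i).nonempty
    obtain ⟨x₀, hx₀⟩ := (h1 v₀).nonempty
    refine conn_of_rch (x₀ := x₀) (Set.mem_biUnion hv₀ hx₀) ?_
    have key : ∀ v, Rch H (ψ i) v₀ v → v ∈ ψ i ∧ ∀ x ∈ φ v, Rch G (⋃ v ∈ ψ i, φ v) x₀ x := by
      intro v hv
      induction hv with
      | refl =>
        exact ⟨hv₀, fun x hx => (rch_of_conn (h1 v₀) hx₀ hx).mono (Set.subset_biUnion_of_mem hv₀)⟩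
      | @tail b c _ hbc ih =>
        obtain ⟨a, ha, b', hb', hab⟩ := h3 b c hbc.1
        refine ⟨hbc.2, fun x hx => ?_⟩
        have hsub : φ c ⊆ ⋃ v ∈ ψ i, φ v := Set.subset_biUnion_of_mem hbc.2
        exact ((ih.2 a ha).tail ⟨hab, hsub hb'⟩).trans ((rch_of_conn (h1 c) hb' hx).mono hsub)
    intro x hx
    obtain ⟨v, hv, hxv⟩ := Set.mem_iUnion₂.1 hx
    exact (key v (rch_of_conn (k1 i) hv₀ hv)).2 x hxv
  · intro i j hij
    rw [Set.disjoint_left]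
    intro x hx hy
    obtain ⟨v, hv, hxv⟩ := Set.mem_iUnion₂.1 hx
    obtain ⟨w, hw, hxw⟩ := Set.mem_iUnion₂.1 hy
    by_cases hvw : v = w
    · subst hvw
      exact Set.disjoint_left.1 (k2 i j hij) hv hw
    · exact Set.disjoint_left.1 (h2 v w hvw) hxv hxw
  · intro i j hij
    obtain ⟨v, hv, w, hw, hvw⟩ := k3 i j hij
    obtain ⟨a, ha, b, hb, hab⟩ := h3 v w hvw
    exact ⟨a, Set.mem_biUnion hv ha, b, Set.mem_biUnion hw hb, hab⟩

/-- A set which is closed under right multiplication by the generators. -/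
theorem all_of_closed {Γ : Type u} [Group Γ] {S : Set Γ} (hS : Subgroup.closure S = ⊤)
    (hs : ∀ s ∈ S, s⁻¹ ∈ S) (B : Set Γ) (h1 : (1 : Γ) ∈ B) (h : ∀ s ∈ S, ∀ x ∈ B, x * s ∈ B)
    (g : Γ) : g ∈ B := by
  have key : ∀ g ∈ Subgroup.closure S, (∀ x ∈ B, x * g ∈ B) ∧ ∀ x ∈ B, x * g⁻¹ ∈ B := by
    intro g hg
    induction hg using Subgroup.closure_induction with
    | mem s hs' => exact ⟨h s hs', h _ (hs s hs')⟩
    | one => exact ⟨fun x hx => by rwa [mul_one], fun x hx => by rwa [inv_one, mul_one]⟩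
    | mul a b _ _ ha hb =>
      refine ⟨fun x hx => ?_, fun x hx => ?_⟩
      · rw [← mul_assoc]; exact hb.1 _ (ha.1 x hx)
      · rw [mul_inv_rev, ← mul_assoc]; exact ha.2 _ (hb.2 x hx)
    | inv a _ ha => exact ⟨ha.2, fun x hx => by rw [inv_inv]; exact ha.1 x hx⟩
  have := (key g (by rw [hS]; exact Subgroup.mem_top g)).1 1 h1
  rwa [one_mul] at this

/-- A connected partial transversal. -/
def PT {Γ : Type u} [Group Γ] (S : Set Γ) (D : Subgroup Γ) (X : Set Γ) : Prop :=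
  (1 : Γ) ∈ X ∧ (∀ x ∈ X, Rch (cay S) X 1 x) ∧ ∀ x ∈ X, ∀ y ∈ X, y * x⁻¹ ∈ D → x = y

theorem exists_max {Γ : Type u} [Group Γ] (S : Set Γ) (D : Subgroup Γ) :
    ∃ X : Set Γ, Maximal (fun Y => PT S D Y) X := by
  have h := zorn_subset {X : Set Γ | PT S D X} ?_
  · obtain ⟨X, hX⟩ := h
    exact ⟨X, hX⟩
  intro c hc hch
  rcases c.eq_empty_or_nonempty with rfl | ⟨Y, hY⟩
  · refine ⟨{1}, ⟨rfl, ?_, ?_⟩, fun s hs => absurd hs (Set.notMem_empty s)⟩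
    · rintro x rfl
      exact Relation.ReflTransGen.refl
    · rintro x rfl y rfl _
      rfl
  · refine ⟨⋃₀ c, ⟨?_, ?_, ?_⟩, fun s hs => Set.subset_sUnion_of_mem hs⟩
    · exact Set.mem_sUnion_of_mem (hc hY).1 hY
    · intro x hx
      obtain ⟨Z, hZ, hxZ⟩ := hx
      exact ((hc hZ).2.1 x hxZ).mono (Set.subset_sUnion_of_mem hZ)
    · rintro x ⟨Z, hZ, hxZ⟩ y ⟨Z', hZ', hyZ'⟩ hxy
      rcases hch.total hZ hZ' with h | h
      · exact (hc hZ').2.2 x (h hxZ) y hyZ' hxy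
      · exact (hc hZ).2.2 x hxZ y (h hyZ') hxy

theorem transversal {Γ : Type u} [Group Γ] {S : Set Γ} (hS : Subgroup.closure S = ⊤)
    (hs : ∀ s ∈ S, s⁻¹ ∈ S) (h1 : (1 : Γ) ∉ S) (D : Subgroup Γ) :
    ∃ X : Set Γ, PT S D X ∧ ∀ g : Γ, ∃ d ∈ D, d⁻¹ * g ∈ X := by
  obtain ⟨X, hX, hmax⟩ := exists_max S D
  refine ⟨X, hX, ?_⟩
  obtain ⟨hX1, hX2, hX3⟩ := hX
  intro g
  refine all_of_closed hS hs {g : Γ | ∃ d ∈ D, d⁻¹ * g ∈ X} ⟨1, D.one_mem, by simpa using hX1⟩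
    ?_ g
  rintro s hsS x ⟨d, hd, hdx⟩
  by_contra hno
  set x₀ := d⁻¹ * x with hx₀
  have hz : x₀ * s = d⁻¹ * (x * s) := by rw [hx₀, mul_assoc]
  have hzX : ∀ e ∈ D, e⁻¹ * (x₀ * s) ∉ X := by
    intro e he h
    refine hno ⟨d * e, D.mul_mem hd he, ?_⟩
    rw [hz] at h
    rwa [mul_inv_rev, mul_assoc]
  have hPT : PT S D (insert (x₀ * s) X) := by
    refine ⟨Set.mem_insert_of_mem _ hX1, ?_, ?_⟩
    · rintro y (rfl | hy)
      · refine ((hX2 _ hdx).mono (Set.subset_insert _ _)).tail ⟨?_, Set.mem_insert _ _⟩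
        refine cay_adj.2 ⟨?_, Or.inl (by rw [inv_mul_cancel_left]; exact hsS)⟩
        intro h
        have h2 : x₀ * 1 = x₀ * s := by rw [mul_one]; exact h
        exact h1 ((mul_left_cancel h2) ▸ hsS)
      · exact (hX2 y hy).mono (Set.subset_insert _ _)
    · rintro a (rfl | ha) b (rfl | hb) hab
      · rfl
      · exfalso
        refine hzX _ (D.inv_mem hab) ?_
        have : (b * (x₀ * s)⁻¹)⁻¹⁻¹ * (x₀ * s) = b := by group
        rwa [this]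
      · exfalso
        refine hzX _ hab ?_
        have : ((x₀ * s) * a⁻¹)⁻¹ * (x₀ * s) = a := by group
        rwa [this]
      · exact hX3 a ha b hb hab
  have hin : x₀ * s ∈ X := hmax hPT (Set.subset_insert _ _) (Set.mem_insert _ _)
  refine hzX 1 D.one_mem ?_
  simpa using hin

/-- **Reduction.** -/
theorem reduction (Γ : Type u) [Group Γ] (S : Set Γ) (hS : Subgroup.closure S = ⊤)
    (hs : ∀ s ∈ S, s⁻¹ ∈ S) (h1 : (1 : Γ) ∉ S) (D : Subgroup Γ) (b : Γ)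
    (hinf : {s | s ∈ S ∧ s * b⁻¹ ∈ D}.Infinite) :
    ∃ T : Set D, Subgroup.closure T = ⊤ ∧ (∀ t ∈ T, t⁻¹ ∈ T) ∧ (1 : D) ∉ T ∧ T.Infinite ∧
      ∃ φ : D → Set Γ, (∀ g, ((cay S).induce (φ g)).Connected) ∧
        (∀ g h, g ≠ h → Disjoint (φ g) (φ h)) ∧
        ∀ g h, (cay T).Adj g h → ∃ a ∈ φ g, ∃ b ∈ φ h, (cay S).Adj a b := by
  obtain ⟨X, ⟨hX1, hX2, hX3⟩, hcov⟩ := transversal hS hs h1 D
  have hone : ∀ s ∈ S, ∀ x : Γ, (cay S).Adj x (x * s) := by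
    intro s hsS x
    refine cay_adj.2 ⟨?_, Or.inl (by rw [inv_mul_cancel_left]; exact hsS)⟩
    intro h
    have h2 : x * 1 = x * s := by rw [mul_one]; exact h
    exact h1 ((mul_left_cancel h2) ▸ hsS)
  let T : Set D := {t | t ≠ 1 ∧ ∃ x ∈ X, ∃ y ∈ X, (cay S).Adj x ((t : Γ) * y)}
  have hTs : ∀ t ∈ T, t⁻¹ ∈ T := by
    rintro t ⟨ht, x, hx, y, hy, hxy⟩
    refine ⟨fun h => ht (inv_eq_one.1 h), y, hy, x, hx, ?_⟩
    have := cay_mul ((t : Γ)⁻¹) hxy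
    rw [inv_mul_cancel_left] at this
    exact this.symm
  have hstep : ∀ (d e : D) (y z : Γ), (d : Γ)⁻¹ * y ∈ X → (e : Γ)⁻¹ * z ∈ X →
      (cay S).Adj y z → d⁻¹ * e ∈ Subgroup.closure T := by
    intro d e y z hy hz hyz
    by_cases h : d⁻¹ * e = 1
    · rw [h]; exact Subgroup.one_mem _
    · refine Subgroup.subset_closure ⟨h, _, hy, _, hz, ?_⟩
      have := cay_mul ((d : Γ)⁻¹) hyz
      have e1 : ((d⁻¹ * e : D) : Γ) * ((e : Γ)⁻¹ * z) = (d : Γ)⁻¹ * z := by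
        push_cast
        group
      rwa [e1]
  have hgen : Subgroup.closure T = ⊤ := by
    rw [eq_top_iff]
    rintro g -
    have hB := all_of_closed hS hs
      {y : Γ | ∃ d : D, d ∈ Subgroup.closure T ∧ (d : Γ)⁻¹ * y ∈ X}
      ⟨1, Subgroup.one_mem _, by simpa using hX1⟩ ?_ (g : Γ)
    · obtain ⟨d, hd, hdX⟩ := hB
      have h2 := hX3 1 hX1 _ hdX (by
        rw [inv_one, mul_one]
        exact D.mul_mem (D.inv_mem d.2) g.2)
      have h3 : (d : Γ) = g := by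
        rw [eq_comm, inv_mul_eq_one] at h2
        exact h2
      rw [← Subtype.ext h3]
      exact hd
    · rintro s hsS y ⟨d, hd, hdX⟩
      obtain ⟨e, heD, he⟩ := hcov (y * s)
      refine ⟨⟨e, heD⟩, ?_, he⟩
      have := hstep d ⟨e, heD⟩ y (y * s) hdX he (hone s hsS y)
      have h4 := Subgroup.mul_mem _ hd this
      rwa [mul_inv_cancel_left] at h4
  have hTinf : T.Infinite := by
    intro hfin
    obtain ⟨d₀, hd₀, hr⟩ := hcov b
    refine hinf (((hfin.insert 1).image fun t : D => (t : Γ) * (d₀⁻¹ * b)).subset ?_)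
    rintro s ⟨hsS, hsD⟩
    refine ⟨⟨s * b⁻¹ * d₀, D.mul_mem hsD hd₀⟩, ?_, by group⟩
    by_cases h : (⟨s * b⁻¹ * d₀, D.mul_mem hsD hd₀⟩ : D) = 1
    · exact Or.inl h
    · refine Or.inr ⟨h, 1, hX1, _, hr, ?_⟩
      have e1 : s * b⁻¹ * d₀ * (d₀⁻¹ * b) = 1 * s := by group
      change (cay S).Adj 1 (s * b⁻¹ * d₀ * (d₀⁻¹ * b))
      rw [e1]
      exact hone s hsS 1
  refine ⟨T, hgen, hTs, fun h => h.1 rfl, hTinf, fun g => {y | (g : Γ)⁻¹ * y ∈ X}, ?_, ?_, ?_⟩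
  · intro g
    refine conn_of_rch (x₀ := (g : Γ)) (by simpa using hX1) ?_
    intro y hy
    have := hX2 _ hy
    have h5 : Rch (cay S) {y | (g : Γ)⁻¹ * y ∈ X} ((g : Γ) * 1) ((g : Γ) * ((g : Γ)⁻¹ * y)) :=
      Relation.ReflTransGen.lift (r := fun u v => (cay S).Adj u v ∧ v ∈ X)
        (p := fun u v => (cay S).Adj u v ∧ v ∈ {y | (g : Γ)⁻¹ * y ∈ X}) (fun x => (g : Γ) * x)
        (fun a c hac => ⟨cay_mul _ hac.1, by simpa using hac.2⟩) _ _ this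
    rwa [mul_one, mul_inv_cancel_left] at h5
  · intro g h hgh
    rw [Set.disjoint_left]
    intro y hg hh
    have h6 := hX3 _ hg _ hh (by
      have : (h : Γ)⁻¹ * y * ((g : Γ)⁻¹ * y)⁻¹ = (h : Γ)⁻¹ * g := by group
      rw [this]
      exact D.mul_mem (D.inv_mem h.2) g.2)
    have h7 := mul_right_cancel h6
    exact hgh (Subtype.ext (inv_injective h7))
  · intro g h hgh
    rcases (cay_adj.1 hgh).2 with ⟨-, x, hx, y, hy, hxy⟩ | ⟨-, x, hx, y, hy, hxy⟩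
    · refine ⟨(g : Γ) * x, by simpa using hx, (h : Γ) * y, by simpa using hy, ?_⟩
      have := cay_mul (g : Γ) hxy
      have e1 : (g : Γ) * (((g⁻¹ * h : D) : Γ) * y) = (h : Γ) * y := by
        push_cast
        group
      rwa [e1] at this
    · refine ⟨(g : Γ) * y, by simpa using hy, (h : Γ) * x, by simpa using hx, ?_⟩
      have := cay_mul (h : Γ) hxy
      have e1 : (h : Γ) * (((h⁻¹ * g : D) : Γ) * y) = (g : Γ) * y := by
        push_cast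
        group
      rw [e1] at this
      exact this.symm

end Pool.Agent.Helper58.Red
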