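import Pool.Agent.Helper58.BT.Red

/-!
# Reduction with products of boundedly many generators
-/

set_option autoImplicit false

open scoped Pointwise

namespace Pool.Agent.Helper58.Red

open Pool.Agent.Helper58.VF

universe u

/-- **Reduction**, with products of at most `N` generators. -/
theorem reductionN (Γ : Type u) [Group Γ] (S : Set Γ) (hS : Subgroup.closure S = ⊤)
    (hs : ∀ s ∈ S, s⁻¹ ∈ S) (h1 : (1 : Γ) ∉ S) (D : Subgroup Γ) (b : Γ) (N : ℕ)
    (hinf : {x : Γ | x * b⁻¹ ∈ D ∧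
      ∃ l : List Γ, l.length ≤ N ∧ (∀ s ∈ l, s ∈ S) ∧ l.prod = x}.Infinite) :
    ∃ T : Set D, Subgroup.closure T = ⊤ ∧ (∀ t ∈ T, t⁻¹ ∈ T) ∧ (1 : D) ∉ T ∧ T.Infinite ∧
      ∃ φ : D → Set Γ, (∀ g, ((cay S).induce (φ g)).Connected) ∧
        (∀ g h, g ≠ h → Disjoint (φ g) (φ h)) ∧
        ∀ g h, (cay T).Adj g h → ∃ a ∈ φ g, ∃ b ∈ φ h, (cay S).Adj a b := by
  obtain ⟨X, ⟨hX1, hX2, hX3⟩, hcov⟩ := transversal hS hs h1 D
  have hone : ∀ s ∈ S, ∀ x : Γ, (cay S).Adj x (x * s) := by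
    intro s hsS x
    refine cay_adj.2 ⟨?_, Or.inl (by rw [inv_mul_cancel_left]; exact hsS)⟩
    intro h
    have h2 : x * 1 = x * s := by rw [mul_one]; exact h
    exact h1 ((mul_left_cancel h2) ▸ hsS)
  let T : Set D := {t | t ≠ 1 ∧ ∃ x ∈ X, ∃ y ∈ X, (cay S).Adj x ((t : Γ) * y)}
  have hTs : ∀ t ∈ T, t⁻¹ ∈ T := by
    rintro t ⟨ht, x, hx, y, hy, hxy⟩
    refine ⟨fun h => ht (inv_eq_one.1 h), y, hy, x, hx, ?_⟩
    have := cay_mul ((t : Γ)⁻¹) hxy
    rw [inv_mul_cancel_left] at this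
    exact this.symm
  have hstep : ∀ (d e : D) (y z : Γ), (d : Γ)⁻¹ * y ∈ X → (e : Γ)⁻¹ * z ∈ X →
      (cay S).Adj y z → d⁻¹ * e ∈ Subgroup.closure T := by
    intro d e y z hy hz hyz
    by_cases h : d⁻¹ * e = 1
    · rw [h]; exact Subgroup.one_mem _
    · refine Subgroup.subset_closure ⟨h, _, hy, _, hz, ?_⟩
      have := cay_mul ((d : Γ)⁻¹) hyz
      have e1 : ((d⁻¹ * e : D) : Γ) * ((e : Γ)⁻¹ * z) = (d : Γ)⁻¹ * z := by
        push_cast
        group
      rwa [e1]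
  have hgen : Subgroup.closure T = ⊤ := by
    rw [eq_top_iff]
    rintro g -
    have hB := all_of_closed hS hs
      {y : Γ | ∃ d : D, d ∈ Subgroup.closure T ∧ (d : Γ)⁻¹ * y ∈ X}
      ⟨1, Subgroup.one_mem _, by simpa using hX1⟩ ?_ (g : Γ)
    · obtain ⟨d, hd, hdX⟩ := hB
      have h2 := hX3 1 hX1 _ hdX (by
        rw [inv_one, mul_one]
        exact D.mul_mem (D.inv_mem d.2) g.2)
      have h3 : (d : Γ) = g := by
        rw [eq_comm, inv_mul_eq_one] at h2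
        exact h2
      rw [← Subtype.ext h3]
      exact hd
    · rintro s hsS y ⟨d, hd, hdX⟩
      obtain ⟨e, heD, he⟩ := hcov (y * s)
      refine ⟨⟨e, heD⟩, ?_, he⟩
      have := hstep d ⟨e, heD⟩ y (y * s) hdX he (hone s hsS y)
      have h4 := Subgroup.mul_mem _ hd this
      rwa [mul_inv_cancel_left] at h4
  have hmem : ∀ (d e : D) (y z : Γ), (d : Γ)⁻¹ * y ∈ X → (e : Γ)⁻¹ * z ∈ X →
      (cay S).Adj y z → d⁻¹ * e ∈ insert 1 T := by
    intro d e y z hy hz hyz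
    by_cases h : d⁻¹ * e = 1
    · exact Or.inl h
    · refine Or.inr ⟨h, _, hy, _, hz, ?_⟩
      have := cay_mul ((d : Γ)⁻¹) hyz
      have e1 : ((d⁻¹ * e : D) : Γ) * ((e : Γ)⁻¹ * z) = (d : Γ)⁻¹ * z := by
        push_cast
        group
      rwa [e1]
  have hlist : ∀ (l : List Γ), (∀ s ∈ l, s ∈ S) → ∀ (d : D) (y : Γ), (d : Γ)⁻¹ * y ∈ X →
      ∃ e : D, (e : Γ)⁻¹ * (y * l.prod) ∈ X ∧ d⁻¹ * e ∈ (insert 1 T : Set D) ^ l.length := by
    intro l
    induction l with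
    | nil =>
      intro _ d y hy
      refine ⟨d, by simpa using hy, ?_⟩
      rw [inv_mul_cancel, List.length_nil, pow_zero]
      exact Set.mem_one.2 rfl
    | cons s l ih =>
      intro hl d y hy
      obtain ⟨e, heD, he⟩ := hcov (y * s)
      obtain ⟨f, hf1, hf2⟩ := ih (fun t ht => hl t (List.mem_cons_of_mem _ ht)) ⟨e, heD⟩ (y * s) he
      refine ⟨f, ?_, ?_⟩
      · rw [List.prod_cons, ← mul_assoc y]
        exact hf1
      · rw [List.length_cons, pow_succ']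
        have h8 := hmem d ⟨e, heD⟩ y (y * s) hy he (hone s (hl s List.mem_cons_self) y)
        have h9 := Set.mul_mem_mul h8 hf2
        have h10 : d⁻¹ * (⟨e, heD⟩ : D) * ((⟨e, heD⟩ : D)⁻¹ * f) = d⁻¹ * f := by group
        rwa [h10] at h9
  have hTinf : T.Infinite := by
    intro hfin
    obtain ⟨d₀, hd₀, hr⟩ := hcov b
    have hpow' : ∀ n : ℕ, ((insert 1 T : Set D) ^ n).Finite := by
      intro n
      induction n with
      | zero => rw [pow_zero]; exact Set.finite_one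
      | succ n ih => rw [pow_succ]; exact Set.Finite.mul ih (Set.Finite.insert 1 hfin)
    have hpow := hpow' N
    refine hinf ((hpow.image fun t : D => (t : Γ) * (d₀⁻¹ * b)).subset ?_)
    rintro x ⟨hxD, l, hlN, hlS, rfl⟩
    obtain ⟨e, he1, he2⟩ := hlist l hlS 1 1 (by simpa using hX1)
    rw [one_mul] at he1
    rw [inv_one, one_mul] at he2
    have h11 := hX3 _ he1 _ hr (by
      have : d₀⁻¹ * b * ((e : Γ)⁻¹ * l.prod)⁻¹ = d₀⁻¹ * (l.prod * b⁻¹)⁻¹ * e := by group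
      rw [this]
      exact D.mul_mem (D.mul_mem (D.inv_mem hd₀) (D.inv_mem hxD)) e.2)
    refine ⟨e, Set.pow_subset_pow_right (Set.mem_insert _ _) hlN he2, ?_⟩
    change (e : Γ) * (d₀⁻¹ * b) = l.prod
    rw [← h11, mul_inv_cancel_left]
  refine ⟨T, hgen, hTs, fun h => h.1 rfl, hTinf, fun g => {y | (g : Γ)⁻¹ * y ∈ X}, ?_, ?_, ?_⟩
  · intro g
    refine conn_of_rch (x₀ := (g : Γ)) (by simpa using hX1) ?_
    intro y hy
    have := hX2 _ hy
    have h5 : Rch (cay S) {y | (g : Γ)⁻¹ * y ∈ X} ((g : Γ) * 1) ((g : Γ) * ((g : Γ)⁻¹ * y)) :=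
      Relation.ReflTransGen.lift (r := fun u v => (cay S).Adj u v ∧ v ∈ X)
        (p := fun u v => (cay S).Adj u v ∧ v ∈ {y | (g : Γ)⁻¹ * y ∈ X}) (fun x => (g : Γ) * x)
        (fun a c hac => ⟨cay_mul _ hac.1, by simpa using hac.2⟩) _ _ this
    rwa [mul_one, mul_inv_cancel_left] at h5
  · intro g h hgh
    rw [Set.disjoint_left]
    intro y hg hh
    have h6 := hX3 _ hg _ hh (by
      have : (h : Γ)⁻¹ * y * ((g : Γ)⁻¹ * y)⁻¹ = (h : Γ)⁻¹ * g := by group
      rw [this]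
      exact D.mul_mem (D.inv_mem h.2) g.2)
    have h7 := mul_right_cancel h6
    exact hgh (Subtype.ext (inv_injective h7))
  · intro g h hgh
    rcases (cay_adj.1 hgh).2 with ⟨-, x, hx, y, hy, hxy⟩ | ⟨-, x, hx, y, hy, hxy⟩
    · refine ⟨(g : Γ) * x, by simpa using hx, (h : Γ) * y, by simpa using hy, ?_⟩
      have := cay_mul (g : Γ) hxy
      have e1 : (g : Γ) * (((g⁻¹ * h : D) : Γ) * y) = (h : Γ) * y := by
        push_cast
        group
      rwa [e1] at this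
    · refine ⟨(g : Γ) * y, by simpa using hy, (h : Γ) * x, by simpa using hx, ?_⟩
      have := cay_mul (h : Γ) hxy
      have e1 : (h : Γ) * (((h⁻¹ * g : D) : Γ) * y) = (g : Γ) * y := by
        push_cast
        group
      rw [e1] at this
      exact this.symm

end Pool.Agent.Helper58.Red
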